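import Pool.Agent.helper12.DD.Spec2

/-!
# Project dw, module MXU: reduction to `U = E`
-/

set_option autoImplicit false

open Pool.Agent.helper49.Blk

namespace Pool.Agent.DD

theorem MXU_mem {G E : Type} [Group G] [Group E] (ι : G →* E) (hinj : Function.Injective ι) (p : ℕ)
    (M : Ideal (integralClosure ℤ ℂ)) (χ : G → ℂ) (U : Subgroup E) (d : ℕ)
    (hU : altQ p M ι χ d U ≠ 0) : ∀ x, ι x ∈ U := by
  intro x
  obtain ⟨C, hC⟩ : ∃ C : List (Subgroup G), kC p M ι χ C d U ≠ 0 := by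
    by_contra hno
    push Not at hno
    apply hU
    unfold altQ
    refine finsum_eq_zero_of_forall_eq_zero fun C => ?_
    rw [hno C]
    simp
  unfold kC at hC
  have hne : (kset p M ι χ (NC C) {P | P ∈ C} d U).Nonempty := by
    rw [Set.nonempty_iff_ne_empty]
    intro he
    rw [he, Set.ncard_empty] at hC
    exact hC rfl
  obtain ⟨ψ, -, -, -, hψ⟩ := hne
  rw [hψ (ι x)]
  refine ⟨x⁻¹, ?_⟩
  rw [← map_mul, mul_inv_cancel, map_one]
  constructor
  · intro P _ a b hab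
    rw [one_mul, inv_one, mul_one] at hab
    rw [hinj hab]
  · intro a b hab
    rw [one_mul, inv_one, mul_one] at hab
    have : b = a := Subtype.ext (hinj hab)
    rw [this]

theorem MXU (hRES : RES_stmt) : MXU_stmt := by
  classical
  intro G E _ _ _ _ ι hinj hnor p M χ hex
  obtain ⟨U, d, hU⟩ := hex
  obtain ⟨U₁, hU₁⟩ := Set.Finite.exists_maximal
    (Set.toFinite {U : Subgroup E | ∃ d, altQ p M ι χ d U ≠ 0}) ⟨U, d, hU⟩
  obtain ⟨d₁, hd₁⟩ := hU₁.prop
  have h : ∀ x, ι x ∈ U₁ := MXU_mem ι hinj p M χ U₁ d₁ hd₁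
  refine ⟨U₁, h, d₁, ?_⟩
  rw [hRES G E ι hinj hnor p M χ d₁ U₁ h, finsum_eq_single _ U₁]
  · rw [finsum_eq_if, if_pos (show U₁ ∈ {V : Subgroup E | U₁ ≤ V} from le_refl U₁)]
    exact hd₁
  · intro V hV
    rw [finsum_eq_if]
    split_ifs with hle
    · by_contra hne
      exact hV (le_antisymm (hU₁.le_of_ge ⟨d₁, hne⟩ hle) hle)
    · rfl

end Pool.Agent.DD
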